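import Pool.Agent.Lib_helper78.RF.Defs

/-!
# Base theories that contain the diagram of the oracle (MP_5c38ab_lc)
-/

set_option autoImplicit false

namespace Pool.Agent.RO

open Pool.Agent.CK Pool.Agent.RF

/-- Base theories which in addition refute every false sentence `Con_T(n)`, contain all true
sentences `a ≤ b` (with numerals) and the diagram of the oracle. -/
structure BaseD (O : Lang) (B : Fm → Prop) : Prop extends Base O B where
  refCon : ∀ (T : Th) (n : ℕ), ¬ (Con T n).True O → Provable B (.neg (Con T n))
  leD : ∀ a b : ℕ, a ≤ b → B (.le (num a) (num b))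
  orcD : ∀ x : List Bool, O x = true → B (.orc (num (val x)))
  orcN : ∀ x : List Bool, O x = false → B (.neg (.orc (num (val x))))

end Pool.Agent.RO
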