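import Pool.Agent.Lib_helper78.RF.Params
import Pool.Agent.Lib_helper78.RO.Base
import Pool.Agent.Lib_helper74.NE.Univ

/-!
# Finite reflection relative to a random oracle (MP_5c38ab_lc): auxiliary definitions

Formulas and programs as lists of tokens, a proof checker on certificates, and the theory that
bets against a given theory.  All functions are polynomial time in the sense of
`Lib_helper74/NE`.
-/

set_option autoImplicit false

namespace Pool.Agent.RO

open Pool.Agent.CK Pool.Agent.RF Pool.Agent.CKP

/-! ## Equality -/

/-- equality of codes -/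
def eqT {α : Type} [ToD α] (a b : α) : Bool := decide (toD a = toD b)

/-! ## Tokens -/

/-- tokens: a kind and an index, both in unary -/
abbrev Tk : Type := List Unit × List Unit

/-- the token with kind `k` and index `i` -/
def tk (k i : ℕ) : Tk := (List.replicate k (), List.replicate i ())

/-- the kind is `k` -/
def isK (k : ℕ) (t : Tk) : Bool := decide (t.1.length = k)

/-- the index is `i` -/
def idxIs (i : List Unit) (t : Tk) : Bool := decide (t.2.length = i.length)

/-- tokens of a term -/
def tmT : Tm → List Tk
  | .var i => [tk 0 i]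
  | .zero => [tk 1 0]
  | .succ t => tk 2 0 :: tmT t
  | .half t => tk 3 0 :: tmT t
  | .len t => tk 4 0 :: tmT t
  | .add s t => tk 5 0 :: (tmT s ++ tmT t)
  | .mul s t => tk 6 0 :: (tmT s ++ tmT t)
  | .smash s t => tk 7 0 :: (tmT s ++ tmT t)
  | .sbn r s t => tk 8 0 :: (tmT r ++ (tmT s ++ tmT t))

/-- tokens of a formula -/
def fmT : Fm → List Tk
  | .eq s t => tk 9 0 :: (tmT s ++ tmT t)
  | .le s t => tk 10 0 :: (tmT s ++ tmT t)
  | .orc t => tk 11 0 :: tmT t
  | .tr e x w z => tk 12 0 :: (tmT e ++ (tmT x ++ (tmT w ++ tmT z)))
  | .prf p z u v => tk 13 0 :: (tmT p ++ (tmT z ++ (tmT u ++ tmT v)))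
  | .neg φ => tk 14 0 :: fmT φ
  | .imp φ ψ => tk 15 0 :: (fmT φ ++ fmT ψ)
  | .all i φ => tk 16 i :: fmT φ

/-- the arities of the kinds -/
def arTable : List (List Unit) :=
  [[], [], [()], [()], [()], [(), ()], [(), ()], [(), ()], [(), (), ()], [(), ()], [(), ()],
    [()], [(), (), (), ()], [(), (), (), ()], [()], [(), ()], [()]]

/-- the arity of a token, in unary -/
def arU (t : Tk) : List Unit := arTable.getD t.1.length []

/-- one step of a top-down traversal: the list holds the attributes of the expected subterms -/
def tdStep {α β : Type} (upd : α → Tk → α) (em : α → Tk → β → β) (d : α) (q : List α × β)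
    (t : Tk) : List α × β :=
  ((arU t).map (fun _ => upd (q.1.headD d) t) ++ q.1.tail, em (q.1.headD d) t q.2)

/-- the token is the quantifier over the variable `i` -/
def isAll (i : List Unit) (t : Tk) : Bool := isK 16 t && idxIs i t

/-- the token is the variable `i` -/
def isVar (i : List Unit) (t : Tk) : Bool := isK 0 t && idxIs i t

/-- substitution of the term `a` for the free variable `i` -/
def sbT (i : List Unit) (a p : List Tk) : List Tk :=
  (p.foldl (tdStep (fun b t => b || isAll i t)
    (fun b t o => (if (isVar i t && !b) = true then a.reverse else [t]) ++ o) false)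
    ([false], [])).2.reverse

/-- the variable `i` is free -/
def frT (i : List Unit) (p : List Tk) : Bool :=
  (p.foldl (tdStep (fun b t => b || isAll i t) (fun b t o => o || (isVar i t && !b)) false)
    ([false], false)).2

/-- the term `a` is substitutable for the variable `i` -/
def okT (i : List Unit) (a p : List Tk) : Bool :=
  (p.foldl (tdStep (fun (b : Bool × Bool) t => (b.1 || isAll i t, b.2 || (isK 16 t && a.any (isVar t.2))))
    (fun b t o => o && !(isVar i t && !b.1 && b.2)) (false, false)) ([(false, false)], true)).2

/-- the token fits the expected category (`true`: formula) -/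
def proper (b : Bool) (t : Tk) : Bool :=
  (if b = true then decide (9 ≤ t.1.length) && decide (t.1.length ≤ 16)
    else decide (t.1.length ≤ 8)) && (t.2.isEmpty || isK 0 t || isK 16 t)

/-- one step of the syntax check -/
def vStep (q : List Bool × Bool) (t : Tk) : List Bool × Bool :=
  ((arU t).map (fun _ => decide (14 ≤ t.1.length)) ++ q.1.tail,
    q.2 && (!q.1.isEmpty && proper (q.1.headD false) t))

/-- the token list is a formula (`b = true`) or a term (`b = false`) -/
def validT (b : Bool) (p : List Tk) : Bool :=
  (p.foldl vStep ([b], true)).1.isEmpty && (p.foldl vStep ([b], true)).2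

/-- atomic formulas -/
def atomT (p : List Tk) : Bool :=
  decide (9 ≤ (p.headD ([], [])).1.length) && decide ((p.headD ([], [])).1.length ≤ 13)

/-! ## Bit strings -/

/-- the tag with a number in unary -/
def tagU (u : List Unit) : List Bool := u.map (fun _ => true) ++ [false]

/-- the bits of a token of a formula -/
def encK (t : Tk) : List Bool :=
  tagU (if decide (9 ≤ t.1.length) = true then udrop (List.replicate 9 ()) t.1 else t.1) ++
    (if (isK 0 t || isK 16 t) = true then tagU t.2 else [])

/-- the bit string of a token list -/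
def encT (p : List Tk) : List Bool := p.flatMap encK

/-! ## Special formulas -/

/-- implication -/
def impK (p q : List Tk) : List Tk := tk 15 0 :: (p ++ q)
/-- negation -/
def negK (p : List Tk) : List Tk := tk 14 0 :: p
/-- conjunction -/
def andK (p q : List Tk) : List Tk := negK (impK p (negK q))
/-- quantification -/
def allK (i : List Unit) (p : List Tk) : List Tk := (List.replicate 16 (), i) :: p
/-- equation -/
def eqK (s t : List Tk) : List Tk := tk 9 0 :: (s ++ t)
/-- inequality -/
def leK (s t : List Tk) : List Tk := tk 10 0 :: (s ++ t)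

/-- the tokens of the numeral of `val y` -/
def numT (y : List Bool) : List Tk :=
  y.flatMap (fun b => if b = true then [tk 2 0, tk 2 0, tk 6 0, tk 2 0, tk 2 0, tk 1 0]
    else [tk 2 0, tk 6 0, tk 2 0, tk 2 0, tk 1 0]) ++ [tk 1 0]

/-- the tokens of `μ₁(e, x, z)` -/
def muT (e x z : List Tk) : List Tk :=
  negK (allK (List.replicate 4 ()) (negK (andK (leK [tk 0 4] z)
    (tk 12 0 :: (e ++ (x ++ ([tk 0 4] ++ z)))))))

/-- the tokens of the clock term -/
def clkT (kk : List Unit) (t : List Tk) : List Tk :=
  kk.foldl (fun c _ => tk 7 0 :: (c ++ ([tk 2 0, tk 6 0, tk 2 0, tk 2 0, tk 1 0, tk 2 0, tk 6 0,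
    tk 2 0, tk 2 0, tk 1 0] ++ t))) [tk 2 0, tk 1 0]

/-- the tokens of `Pr_T(u, v)`, `own` the code of the program of `T`, `kk` its exponent -/
def prT (own : List Bool) (kk : List Unit) (u v : List Tk) : List Tk :=
  tk 13 0 :: (numT own ++ (clkT kk u ++ (u ++ v)))

/-- `|x_i| ≤ n` -/
def lenLe (i : ℕ) (nn : List Bool) : List Tk := leK [tk 4 0, tk 0 i] (numT nn)

/-- the tokens of `Σ^b_1RFN_T(n)`, `n = val nn` -/
def rfnT (own : List Bool) (kk : List Unit) (nn : List Bool) : List Tk :=
  allK [] (allK [()] (allK [(), ()] (allK [(), (), ()] (impK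
    (andK (lenLe 0 nn) (andK (lenLe 1 nn) (andK (lenLe 2 nn) (andK (lenLe 3 nn)
      (prT own kk [tk 0 1] [tk 8 0, tk 0 0, tk 0 2, tk 0 3])))))
    (muT [tk 0 0] [tk 0 2] [tk 0 3])))))

/-- the tokens of `Con_T(n)`, `n = val nn` -/
def conT (own : List Bool) (kk : List Unit) (nn : List Bool) : List Tk :=
  allK [()] (impK (lenLe 1 nn) (negK (prT own kk [tk 0 1] (numT falsum.enc))))

/-! ## Certificates for proofs -/

/-- A line of a certificate: kind, prefix of generalizations, index, pieces `α, β, γ, a, b`.
Kinds: `0` axiom, `1` modus ponens, `2`-`9` logical axioms. -/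
abbrev Line : Type := List Unit × List (List Unit) × List Unit × List (List Tk)

/-- a piece -/
def pc (L : Line) (k : ℕ) : List Tk := L.2.2.2.getD k []

/-- the instance of the schema -/
def schT (L : Line) : List Tk :=
  ([pc L 0, pc L 0,
    impK (pc L 0) (impK (pc L 1) (pc L 0)),
    impK (impK (pc L 0) (impK (pc L 1) (pc L 2)))
      (impK (impK (pc L 0) (pc L 1)) (impK (pc L 0) (pc L 2))),
    impK (impK (negK (pc L 0)) (negK (pc L 1))) (impK (pc L 1) (pc L 0)),
    impK (allK L.2.2.1 (pc L 0)) (sbT L.2.2.1 (pc L 3) (pc L 0)),
    impK (allK L.2.2.1 (impK (pc L 0) (pc L 1)))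
      (impK (allK L.2.2.1 (pc L 0)) (allK L.2.2.1 (pc L 1))),
    impK (pc L 0) (allK L.2.2.1 (pc L 0)),
    eqK (pc L 3) (pc L 3),
    impK (eqK (pc L 3) (pc L 4)) (impK (sbT L.2.2.1 (pc L 3) (pc L 0))
      (sbT L.2.2.1 (pc L 4) (pc L 0)))] : List (List Tk)).getD L.1.length []

/-- the formula of the line -/
def lineF (L : Line) : List Tk :=
  if decide (2 ≤ L.1.length) = true then L.2.1.map (fun i => (List.replicate 16 (), i)) ++ schT L
    else pc L 0

/-- the pieces are formulas and terms -/
def piecesOK (L : Line) : Bool :=
  validT true (pc L 0) && (validT true (pc L 1) && (validT true (pc L 2) &&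
    (validT false (pc L 3) && validT false (pc L 4))))

/-- the line is correct; `seen`: the formulas of the earlier lines; `c`: the code of the program
that decides the axioms; `N`: its time bound -/
def lineOK (O : Lang) (c : D) (N : List Unit) (seen : List (List Tk)) (L : Line) : Bool :=
  piecesOK L &&
  ([accU O c (encT (pc L 0)) [] N,
    seen.any (fun ψ => seen.any (fun χ => eqT χ (impK ψ (pc L 0)))),
    true, true, true, okT L.2.2.1 (pc L 3) (pc L 0), true, !frT L.2.2.1 (pc L 0), true,
    atomT (pc L 0)] : List Bool).getD L.1.length false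

/-- one step of the check -/
def chkStep (O : Lang) (c : D) (N : List Unit) (q : List (List Tk) × Bool) (L : Line) :
    List (List Tk) × Bool := (lineF L :: q.1, q.2 && lineOK O c N q.1 L)

/-- the certificate is a proof of `goal` from the axioms accepted by `c` in `N` steps -/
def chk (O : Lang) (c : D) (N : List Unit) (cert : List Line) (goal : List Tk) : Bool :=
  (cert.foldl (chkStep O c N) ([], true)).2 &&
    eqT ((cert.foldl (chkStep O c N) ([], true)).1.headD []) goal

/-- decoding -/
def toU (d : D) : List Unit := (toList d).map (fun _ => ())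
/-- decoding -/
def toTk (d : D) : Tk := (toU d.car, toU d.cdr)
/-- decoding -/
def toTks (d : D) : List Tk := (toList d).map toTk
/-- decoding -/
def toLine (d : D) : Line :=
  (toU d.car, (toList d.cdr.car).map toU, toU d.cdr.cdr.car, (toList d.cdr.cdr.cdr).map toTks)
/-- decoding -/
def toCert (d : D) : List Line := (toList d).map toLine

/-- all bit strings of the given length -/
def allStr (u : List Unit) : List (List Bool) :=
  u.foldl (fun L _ => L.map (fun w => false :: w) ++ L.map (fun w => true :: w)) [[]]

/-- the bit string with number `2 ^ (3 a + 13) - 2` -/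
def nnS (a : List Unit) : List Bool :=
  (a ++ (a ++ (a ++ List.replicate 12 ()))).map (fun _ => true)

/-- the bound for the lengths of the axioms in a certificate of size `b` -/
def tb (b : ℕ) : ℕ := 32 * b + 32

/-- the bound for the time of the axiom test -/
def tick (k : ℕ) (b : List Unit) : List Unit := List.replicate (tb b.length ^ k) ()

/-- `S` has a certificate of size at most `b` for `RFN_T(n)` or for `Con_T(n)`, where
`n = 2 ^ (3 a + 13) - 2` and `T` is the theory with code `own` and exponent `kk` -/
def acc (O : Lang) (S : Th) (own : List Bool) (kk a b : List Unit) : Bool :=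
  (allStr b).any (fun w =>
    chk O (cmdD S.1) (tick S.2 b) (toCert (dec w)) (rfnT own kk (nnS a)) ||
      chk O (cmdD S.1) (tick S.2 b) (toCert (dec w)) (conT own kk (nnS a)))

/-! ## Stages -/

/-- the stages -/
def st : ℕ → ℕ
  | 0 => 8
  | s + 1 => 2 ^ 2 ^ (st s / 2)

/-- `b = 2 ^ 2 ^ (a / 2)`, `a` even -/
def nxt (a b : List Unit) : Bool :=
  (rangeU a).any (fun m => decide (m.length + m.length = a.length) &&
    (decide (ushl (ulen b.length.bits.tail) 1 = b.length) &&
      decide (b.length.bits.tail.length = ushl m 1)))

/-- the stages that are at most `l`, in decreasing order -/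
def stgs (l : List Unit) : List (List Unit) :=
  (rangeU (() :: l)).foldl (fun q m =>
    if q.isEmpty = true then (if decide (m.length = 8) = true then [m] else [])
    else if nxt (q.headD []) m = true then m :: q else q) []

/-- consecutive pairs -/
def pairsL {α : Type} (l : List α) : List (α × α) :=
  List.rec (motive := fun _ => List (α × α)) []
    (fun a t r => lcase t [] (fun b _ => (a, b) :: r)) l

/-! ## The sentences of the game -/

/-- all strings `1 w y` with `|w| ≤ l` are in the oracle -/
def Bad (O : Lang) (l : ℕ) (y : List Bool) : Prop :=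
  ∀ w : List Bool, w.length ≤ l → O (true :: (w ++ y)) = true

/-- a guard for exhaustive searches -/
def cut (s : List Bool) (b : List Unit) : List Unit :=
  if decide (ushl b 1 ≤ s.length) = true then b else []

/-- all strings of length at most `M` -/
def upTo (M : List Unit) : List (List Bool) := (rangeU (() :: M)).flatMap allStr

/-- the term for the number of `w ++ y`, where `t` is the term for the number of `y` -/
def twF : List Bool → Tm → Tm
  | [], t => t
  | true :: w, t => .succ (.succ (.mul (.succ (.succ .zero)) (twF w t)))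
  | false :: w, t => .succ (.mul (.succ (.succ .zero)) (twF w t))

/-- not all strings `1 w x` with `w` in the list are in the oracle (`x` is the variable `5`) -/
def chF (W : List (List Bool)) : Fm :=
  W.foldr (fun w φ => .imp (.orc (twF (true :: w) (.var 5))) φ) falsum

/-- There is no string `y`, of the length `|y| = n` with `n + 1 + j = 2 ^ (l + 1)`, with
`Bad O l y`:  `∀ x (a ≤ x → (x ≤ b → ¬ all strings 1 w x are in the oracle))`, where `a, b` are the
least and the greatest number of a string of length `n`. -/
def thF (l j : ℕ) : Fm :=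
  .all 5 (.imp (.le (num (val (List.replicate (2 ^ (l + 1) - 1 - j) false))) (.var 5))
    (.imp (.le (.var 5) (num (val (List.replicate (2 ^ (l + 1) - 1 - j) true))))
      (chF (upTo (List.replicate l ())))))

/-- the tokens of the term `twF` -/
def twT (w : List Bool) (p : List Tk) : List Tk :=
  w.flatMap (fun b => if b = true then [tk 2 0, tk 2 0, tk 6 0, tk 2 0, tk 2 0, tk 1 0]
    else [tk 2 0, tk 6 0, tk 2 0, tk 2 0, tk 1 0]) ++ p

/-- the tokens of the formula `chF` -/
def chT (W : List (List Bool)) : List Tk :=
  W.foldr (fun w p => impK (tk 11 0 :: twT (true :: w) [tk 0 5]) p) (fmT falsum)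

/-- the tokens of the sentence `thF` -/
def thT (l j : List Unit) : List Tk :=
  allK (List.replicate 5 ()) (impK (leK (numT ((udrop j (upTo l)).map (fun _ => false))) [tk 0 5])
    (impK (leK [tk 0 5] (numT ((udrop j (upTo l)).map (fun _ => true)))) (chT (upTo l))))

/-! ## The game -/

/-- the weight of a theory -/
def wt (T : Th) : ℕ := 2 * (cEnc T.1).length + T.2

/-- the level `j` at the length `l` is played (`s` is only used to bound the search) -/
def play (O : Lang) (S : Th) (J : ℕ) (own : List Bool) (kk : List Unit) (s : List Bool)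
    (l j : List Unit) : Bool :=
  (decide (J + (own.length + own.length) + kk.length ≤ j.length) &&
    (decide (((stgs l).headD []).length = l.length) && decide (8 ≤ l.length))) &&
  (decide (j.length ≤ (pairsL (stgs l).reverse).length) &&
    (udrop j (pairsL (stgs l).reverse)).all (fun p => acc O S own kk p.1 (cut s p.2)))

/-- the string is a sentence of the game -/
def gameB (O : Lang) (S : Th) (J : ℕ) (own : List Bool) (kk : List Unit) (s : List Bool) : Bool :=
  (rangeU (ulen s.length.bits)).any (fun l => (rangeU l).any (fun j =>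
    eqT s (encT (thT (cut s l) j)) && play O S J own kk s l j))

/-- the decision procedure of the theory -/
def decB (O : Lang) (b S : Th) (J : ℕ) (x : (List Bool × List Unit) × List Bool) : Bool :=
  accU O (cmdD b.1) x.2 [] (List.replicate ((x.2.length + 2) ^ b.2) ()) ||
    gameB O S J x.1.1 x.1.2 x.2

/-! ## Semantic notions -/

/-- `S` commits itself at stage `s` to the theory `T` -/
def AccS (O : Lang) (S T : Th) (s : ℕ) : Prop :=
  acc O S (cEnc T.1) (List.replicate T.2 ()) (List.replicate (st s) ())
    (List.replicate (st (s + 1)) ()) = true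

/-- the pair of stage `s` and level `j` is played -/
def Played (O : Lang) (S T : Th) (j s : ℕ) : Prop := ∀ s', j ≤ s' → s' < s → AccS O S T s'

/-- the event that `T` bets and loses at a level `≥ j0`, and `S` does not commit itself -/
def Ev (S T : Th) (j0 : ℕ) (O : Lang) : Prop :=
  ∃ (s j : ℕ) (y : List Bool), j0 ≤ j ∧ j ≤ s ∧ y.length + 1 + j = 2 ^ (st s + 1) ∧
    Bad O (st s) y ∧ Played O S T j s ∧ ¬ AccS O S T s

/-- the stages from `J` on are large with respect to the exponent of `S` -/
def Large (k J : ℕ) : Prop := ∀ s, J ≤ s →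
  tb (st s) + tb (st s) ^ k + 4 < 2 ^ st s ∧
    tb (st (s + 1)) ^ (k + 1) * 2 ^ (s + 2) ≤ 2 ^ 2 ^ st s

/-- everything that holds for almost every oracle -/
structure Good (O : Lang) : Prop where
  bad : ∀ j s0 : ℕ, ∃ s, s0 ≤ s ∧ ∃ y : List Bool, y.length + 1 + j = 2 ^ (st s + 1) ∧
    Bad O (st s) y
  ev : ∀ (S : Th) (J0 : ℕ), ∃ J, J0 ≤ J ∧ ∀ T : Th, ¬ Ev S T (J + wt T) O

end Pool.Agent.RO
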