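import Pool.Agent.Lib_helper78.RO.Defs

/-!
# Base theories relative to every oracle (MP_5c38ab_lc): auxiliary definitions
-/

set_option autoImplicit false

namespace Pool.Agent.RO

open Pool.Agent.CK Pool.Agent.RF Pool.Agent.CKP

/-! ## Programs as tokens -/

/-- tokens of a program -/
def cmT : Cmd → List Tk
  | .skip => [tk 0 0]
  | .push r false => [tk 1 r]
  | .push r true => [tk 2 r]
  | .pop r => [tk 3 r]
  | .seq c d => tk 4 0 :: (cmT c ++ cmT d)
  | .cond r b c d => tk 5 r :: (cmT b ++ (cmT c ++ cmT d))
  | .loop r c => tk 6 r :: cmT c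
  | .ask r c d => tk 7 r :: (cmT c ++ cmT d)

/-- the arity of a token of a program -/
def arC (t : Tk) : List Unit :=
  ([[], [], [], [], [(), ()], [(), (), ()], [()], [(), ()]] : List (List Unit)).getD t.1.length []

/-- the bits of a token of a program -/
def encCK (t : Tk) : List Bool :=
  ([tag 0, tag 1 ++ (tagU t.2 ++ [false]), tag 1 ++ (tagU t.2 ++ [true]), tag 2 ++ tagU t.2,
    tag 3, tag 4 ++ tagU t.2, tag 5 ++ tagU t.2, tag 6 ++ tagU t.2] :
    List (List Bool)).getD t.1.length []

/-- the bit string of a program -/
def encC (p : List Tk) : List Bool := p.flatMap encCK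

/-- one step of the construction of the tree (from the right) -/
def trStep (t : Tk) (q : List D) : List D :=
  ([.cons (tg 0) .nil,
    .cons (tg 1) (.cons (toD t.2) (toD false)),
    .cons (tg 1) (.cons (toD t.2) (toD true)),
    .cons (tg 2) (.cons (toD t.2) .nil),
    .cons (tg 3) (.cons (q.headD .nil) (q.tail.headD .nil)),
    .cons (tg 4) (.cons (toD t.2) (.cons (q.headD .nil) (.cons (q.tail.headD .nil)
      (q.tail.tail.headD .nil)))),
    .cons (tg 5) (.cons (toD t.2) (q.headD .nil)),
    .cons (tg 6) (.cons (toD t.2) (.cons (q.headD .nil) (q.tail.headD .nil)))] :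
    List D).getD t.1.length .nil :: udrop (arC t) q

/-- the tree code of a program -/
def treeC (p : List Tk) : D := (p.foldr trStep []).headD .nil

/-- one step of the syntax check of programs -/
def vcStep (q : List Unit × Bool) (t : Tk) : List Unit × Bool :=
  (arC t ++ q.1.tail, q.2 && (!q.1.isEmpty && (decide (t.1.length ≤ 7) &&
    (t.2.isEmpty || !(isK 0 t || isK 4 t)))))

/-- the token list is a program -/
def validC (p : List Tk) : Bool :=
  (p.foldl vcStep ([()], true)).1.isEmpty && (p.foldl vcStep ([()], true)).2

/-! ## Parsing -/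

/-- what is expected after a token (`0` formula, `1` term, `2` number, in unary) -/
def expK (t : Tk) : List (List Unit) :=
  if isK 0 t = true then [[(), ()]]
  else if isK 16 t = true then [[(), ()], []]
  else if decide (14 ≤ t.1.length) = true then (arU t).map (fun _ => [])
  else (arU t).map (fun _ => [()])

/-- a parsed tag -/
def pTag (q : List (List Unit) × List Unit × List Tk) : List (List Unit) × List Unit × List Tk :=
  if decide ((q.1.headD []).length = 2) = true then
    (q.1.tail, [], ((q.2.2.headD ([], [])).1, q.2.1) :: q.2.2.tail)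
  else if decide ((q.1.headD []).length = 1) = true then
    (expK (q.2.1, []) ++ q.1.tail, [], (q.2.1, []) :: q.2.2)
  else (expK (List.replicate 9 () ++ q.2.1, []) ++ q.1.tail, [],
    (List.replicate 9 () ++ q.2.1, []) :: q.2.2)

/-- one step of the parser -/
def pStep (q : List (List Unit) × List Unit × List Tk) (b : Bool) :
    List (List Unit) × List Unit × List Tk :=
  if b = true then (q.1, () :: q.2.1, q.2.2) else pTag q

/-- the parser: from the bits of a formula to its tokens -/
def parse (s : List Bool) : List Tk := (s.foldl pStep ([[]], [], [])).2.2.reverse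

/-! ## Atomic sentences -/

/-- `p` is a prefix of `s` -/
def isPre (p s : List Tk) : Bool := eqT (udrop (udrop p s) s.reverse).reverse p

/-- the tokens of a bit in a numeral -/
def blkT (b : Bool) : List Tk :=
  if b = true then [tk 2 0, tk 2 0, tk 6 0, tk 2 0, tk 2 0, tk 1 0]
    else [tk 2 0, tk 6 0, tk 2 0, tk 2 0, tk 1 0]

/-- one step of the reading of a numeral -/
def rdStep (q : List Tk × List Bool) : List Tk × List Bool :=
  if isPre (blkT true) q.1 = true then (udrop (blkT true) q.1, true :: q.2)
  else if isPre (blkT false) q.1 = true then (udrop (blkT false) q.1, false :: q.2)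
  else q

/-- reading a numeral: the rest and the bits -/
def rdN (p : List Tk) : List Tk × List Bool :=
  ((p.foldl (fun q _ => rdStep q) (p, [])).1.tail,
    (p.foldl (fun q _ => rdStep q) (p, [])).2.reverse)

/-- `val s + 1` -/
def sv (s : List Bool) : ℕ := ofBits (s ++ [true])

/-- true sentences `a ≤ b` -/
def leQ (p : List Tk) : Bool :=
  eqT p (leK (numT (rdN p.tail).2) (numT (rdN (rdN p.tail).1).2)) &&
    decide (sv (rdN p.tail).2 ≤ sv (rdN (rdN p.tail).1).2)

/-- the diagram of the oracle -/
def orcQ (O : Lang) (p : List Tk) : Bool :=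
  (eqT p (tk 11 0 :: numT (rdN p.tail).2) && O (rdN p.tail).2) ||
    (eqT p (negK (tk 11 0 :: numT (rdN p.tail.tail).2)) && !O (rdN p.tail.tail).2)

/-! ## Axioms of arithmetic -/

/-- no free variable -/
def closedQ (p : List Tk) : Bool := !p.any (fun t => isK 0 t && frT t.2 p)

/-- the tokens of the induction axiom -/
def pindK (i : List Unit) (p : List Tk) : List Tk :=
  impK (sbT i [tk 1 0] p) (impK (allK i (impK (sbT i [tk 3 0, ([], i)] p) p)) (allK i p))

/-- the formula is an induction axiom -/
def pindQ (q : List Tk) : Bool :=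
  List.rec (motive := fun _ => Bool) false
    (fun a t r => (isK 16 a && (validT true t && eqT q (pindK a.2 t))) || r) q

/-- the axioms BASIC -/
def basicTs : List (List Tk) := basicAxioms.map fmT

/-- the formula is an axiom, before generalization -/
def baseQ (q : List Tk) : Bool := basicTs.any (fun r => eqT q r) || pindQ q

/-- a generalization of an axiom -/
def genQ (p : List Tk) : Bool :=
  List.rec (motive := fun _ => Bool) false (fun a t r => baseQ (a :: t) || (isK 16 a && r)) p

/-- the axioms of arithmetic (with induction for all formulas) -/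
def indQ (p : List Tk) : Bool := closedQ p && genQ p

/-- the same, for formulas -/
def Ind (σ : Fm) : Prop := σ.Closed ∧
  ∃ φ, Gen φ σ ∧ (φ ∈ basicAxioms ∨ ∃ (i : ℕ) (ψ : Fm), φ = pind i ψ)

/-! ## Padded refutations -/

/-- the number of leading tokens of kind `2` -/
def leadS (l : List Tk) : List Unit :=
  List.rec (motive := fun _ => List Unit) []
    (fun a _ r => if isK 2 a = true then () :: r else []) l

/-- the tokens of the padded formula -/
def padK (m : List Unit) (p : List Tk) : List Tk :=
  tk 15 0 :: tk 9 0 :: (m.map (fun _ => tk 2 0) ++ ([tk 1 0] ++ (m.map (fun _ => tk 2 0) ++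
    ([tk 1 0] ++ p))))

/-- `|z|` for the number of a string -/
def sizeU (z : List Bool) : List Unit :=
  if (z.any (fun b => b)) = true then () :: ulen z else ulen z

/-- `μ₁(e, x, z)` is false; `M` is a bound for the search -/
def falseMu (O : Lang) (M : List Unit) (e x z : List Bool) : Bool :=
  (decide (8 * e.length + 8 ≤ M.length) && decide (z.length ≤ M.length)) &&
    (allStr M).all (fun w => !(validC (toTks (dec w)) && eqT (encC (toTks (dec w))) e) ||
      (upTo M).all (fun v => !decide (sv v ≤ sv z) ||
        !accU O (treeC (toTks (dec w))) x v (sizeU z)))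

/-- the formula is the negation of a false sentence `μ₁(e, x, z)` -/
def refMuQ (O : Lang) (M : List Unit) (χ : List Tk) : Bool :=
  (allStr M).any (fun w =>
    eqT χ (negK (muT (numT (toBits (dec w).car)) (numT (toBits (dec w).cdr.car))
      (numT (toBits (dec w).cdr.cdr)))) &&
    falseMu O M (toBits (dec w).car) (toBits (dec w).cdr.car) (toBits (dec w).cdr.cdr))

/-- the values of the clock, largest first -/
def chainQ (M : List Unit) (l : List (List Unit)) : Bool :=
  List.rec (motive := fun _ => Bool) true
    (fun a t r => lcase t (decide (a.length = 1))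
      (fun b _ => decide (a.length = (umul b (M ++ [(), ()])).length + 1)) && r) l

/-- Data for the refutation of `RFN_T(n)`: program, exponent, `n` (in unary and as a string),
`e, x, z`, the certificate and the values of the clock. -/
abbrev RData : Type := (List Tk × List Unit) × (List Unit × List Bool) ×
  (List Bool × List Bool × List Bool) × (List Line × List (List Unit))

/-- the bits of the proof -/
def pfBits (cert : List Line) : List Bool := (cert.map lineF).flatMap encT

/-- the data describe a proof in a theory, of length at most `n`; `g` is its last formula -/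
def dataP (O : Lang) (a : RData) (g : List Tk) : Bool :=
  (validC a.1.1 && decide (sv a.2.1.2 = a.2.1.1.length + 1)) &&
  (decide (sv (pfBits a.2.2.2.1) ≤ ushl a.2.1.1 1) &&
  ((chainQ (sizeU (pfBits a.2.2.2.1)) a.2.2.2.2 &&
    decide (a.2.2.2.2.length = a.1.2.length + 1)) &&
  chk O (treeC a.1.1) (a.2.2.2.2.headD []) a.2.2.2.1 g))

/-- the data refute `RFN_T(n)` -/
def dataR (O : Lang) (M : List Unit) (χ : List Tk) (a : RData) : Bool :=
  eqT χ (negK (rfnT (encC a.1.1) a.1.2 a.2.1.2)) &&
  ((decide (sv a.2.2.1.1 ≤ ushl a.2.1.1 1) && (decide (sv a.2.2.1.2.1 ≤ ushl a.2.1.1 1) &&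
    decide (sv a.2.2.1.2.2 ≤ ushl a.2.1.1 1))) &&
  (dataP O a (muT (numT a.2.2.1.1) (numT a.2.2.1.2.1) (numT a.2.2.1.2.2)) &&
    falseMu O M a.2.2.1.1 a.2.2.1.2.1 a.2.2.1.2.2))

/-- the data refute `Con_T(n)` -/
def dataC (O : Lang) (χ : List Tk) (a : RData) : Bool :=
  eqT χ (negK (conT (encC a.1.1) a.1.2 a.2.1.2)) && dataP O a (fmT falsum)

/-- decoding -/
def toRData (d : D) : RData :=
  ((toTks d.car.car, toU d.car.cdr), (toU d.cdr.car.car, toBits d.cdr.car.cdr),
    (toBits d.cdr.cdr.car.car, toBits d.cdr.cdr.car.cdr.car, toBits d.cdr.cdr.car.cdr.cdr),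
    (toCert d.cdr.cdr.cdr.car, (toList d.cdr.cdr.cdr.cdr).map toU))

/-- the formula is the negation of a false sentence `RFN_T(n)` or `Con_T(n)` -/
def refRfnQ (O : Lang) (M : List Unit) (χ : List Tk) : Bool :=
  (allStr M).any (fun w => dataR O M χ (toRData (dec w)) || dataC O χ (toRData (dec w)))

/-- sufficiently padded refutations -/
def padQ (O : Lang) (p : List Tk) : Bool :=
  eqT p (padK (leadS (udrop [(), ()] p))
      (udrop (leadS (udrop [(), ()] p) ++ (leadS (udrop [(), ()] p) ++ [(), (), (), ()])) p)) &&
    (refMuQ O (ulen (leadS (udrop [(), ()] p)).length.bits.tail)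
        (udrop (leadS (udrop [(), ()] p) ++ (leadS (udrop [(), ()] p) ++ [(), (), (), ()])) p) ||
      refRfnQ O (ulen (leadS (udrop [(), ()] p)).length.bits.tail)
        (udrop (leadS (udrop [(), ()] p) ++ (leadS (udrop [(), ()] p) ++ [(), (), (), ()])) p))

/-- the base theory -/
def b0B (O : Lang) (s : List Bool) : Bool :=
  validT true (parse s) && (eqT (encT (parse s)) s &&
    ((leQ (parse s) || orcQ O (parse s)) || (indQ (parse s) || padQ O (parse s))))

end Pool.Agent.RO
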