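import Pool.Agent.Lib_helper78.RO.F.BAL
import Pool.Agent.Lib_helper78.RO.F.FIN
import Pool.Agent.Lib_helper78.RO.F.GRO
import Pool.Agent.Lib_helper87.RO.GoodAll

/-!
# Q1 relative to a random oracle
-/

set_option autoImplicit false

namespace Pool.Agent.RO

open Pool.Agent.CK Pool.Agent.RF Pool.Agent.CKP MeasureTheory

/-- **Q1 and the hardness of finite consistency statements, relative to almost every oracle.** -/
theorem random_oracle (ν : List Bool → Measure Bool) [∀ x, IsProbabilityMeasure (ν x)]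
    (hν : ∀ w : List Bool, ν (true :: w) {true} = 2⁻¹) :
    ∀ᵐ O ∂(Measure.infinitePi ν), (∃ B, BaseD O B ∧ ∀ σ, S12 σ → B σ) ∧
      ∀ B, BaseD O B → ∀ S, InT O B S → ∃ T, InT O B T ∧
        ¬ PolyBounded O S (RFN T) ∧ ¬ PolyBounded O S (Con T) ∧
        ∀ m, ∃ n, m ≤ n ∧ ∀ l : List Fm,
          (IsProof (Ax O S) (l ++ [RFN T n]) →
            n < (Nat.size (pEnc (l ++ [RFN T n])).length) ^ 7) ∧
          (IsProof (Ax O S) (l ++ [Con T n]) →
            n < (Nat.size (pEnc (l ++ [Con T n])).length) ^ 7) := by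
  filter_upwards [good_all ν hν] with O hO
  refine ⟨base_all O, fun B hB S hS => ?_⟩
  obtain ⟨T, h1, h2⟩ := good_main hO hB hS
  refine ⟨T, h1, ?_, ?_, h2⟩
  · exact not_bounded fun m => by
      obtain ⟨n, hn, h⟩ := h2 m
      exact ⟨n, hn, fun l => (h l).1⟩
  · exact not_bounded fun m => by
      obtain ⟨n, hn, h⟩ := h2 m
      exact ⟨n, hn, fun l => (h l).2⟩

end Pool.Agent.RO
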